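import Pool.Agent.Lib.MP_975a4b_lc.Un.Main

set_option autoImplicit false

namespace Pool.Agent.Results.MP_975a4b_lc.Universal

open Pool.Agent.Lib.MP_975a4b_lc

/-- For every `n ≥ 1` there is a compact connected metrizable space of covering dimension at most
`n` with strong computable type that properly contains a copy of every separable metrizable space
of covering dimension at most `n`. -/
theorem result (n : ℕ) (hn : 1 ≤ n) : ∃ (X : Type) (_ : TopologicalSpace X),
    CompactSpace X ∧ TopologicalSpace.MetrizableSpace X ∧ ConnectedSpace X ∧ CovDimLE X n ∧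
    StrongComputableType X ∧
    ∀ (K : Type) [TopologicalSpace K] [TopologicalSpace.MetrizableSpace K]
      [TopologicalSpace.SeparableSpace K], CovDimLE K n →
      ∃ K' : Set X, K' ≠ Set.univ ∧ Nonempty (K' ≃ₜ K) := by
  obtain ⟨X, h1, h2, L, e, he, h0⟩ := universal hn
  have : CompactSpace X := isCompact_iff_compactSpace.1 h1.isCompact
  have : PreconnectedSpace X := L.dense.preconnectedSpace L.cont
  refine ⟨X, inferInstance, inferInstance, inferInstance, ⟨⟨L.z⟩⟩, dim_of_subset h1 h2, L.strong,
    fun K _ _ _ hK => ?_⟩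
  obtain ⟨f, hf⟩ := exists_emb K (shr_of_dim hK)
  refine ⟨Set.range (e ∘ f), fun h => h0 ?_, ⟨(he.comp hf).toHomeomorph.symm⟩⟩
  exact Set.range_comp_subset_range f e (h ▸ Set.mem_univ _)

end Pool.Agent.Results.MP_975a4b_lc.Universal
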